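import Pool.Agent.H620.Gen.MolSide
import Pool.Agent.H620.Gen.Near
import Pool.Graph.R_seed8.Results.MP_fd8838_nt.EveryClassPositive

/-!
# Generalised Hasse–Syracuse maps: the boundary of an invariant set

Let `gcd(m, d) = 1`, `2 ≤ m ≤ d ^ (d / (d - 1))`, let `R` be admissible, and let `T` be the map whose orbits contain the orbits of
the generalised Hasse–Syracuse map `H` as the subsequences of the terms not divisible by `d`. A set `S` of integers
is invariant if `x ∈ S ↔ T x ∈ S`; examples are the basins of the cycles, and the set of the integers with unbounded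
trajectory. We show that the boundary of such a set is large on each side of `0` where the set is not trivial: for
all `a > 1` and all `K` there are infinitely many `N` such that more than `K N / (√log N (log log N) ^ a)` of the integers
`1 ≤ n ≤ N` have exactly one of `s n`, `s (n + 1)` in `S` (`s = ± 1`). If the positive integers have positive
trajectories, it follows that Möller's conjecture for `(d, m, R)`, the finiteness of `E(d, m, R)`, holds if and only if there is
a nonempty finite set `F` of positive integers with `T F ⊆ F` such that the set of the positive integers whose trajectory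
meets `F` has a boundary thinner than this.

(For the `3 x + 1` map the bound is sharp up to the power of `log log N`. For general maps there can be nontrivial
invariant sets of congruence classes, for instance the even integers if `d = 3`, `m = 5` and the `r_j` are even; so in general
there is no nontrivial upper bound.)

Proof. Let `W y` say that the integral part of the real number `y` is in `S`. If the boundary is thin then, for most `y` in
`[x, 2 x]`, `d ^ t ≤ x < d ^ (t + 1)`, the trajectory gives `W y ↔ W (m ^ a / d ^ t y + O(1))`, where `a` is the number of the terms not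
divisible by `d` among the first `t`, and `a` can be replaced by `t (d - 1) / d`, since `W (m z) ↔ W z` except near the boundary.
The total proportion of the exceptions is `(log t) ^ (- 1 - c)`; the offset `O(1)` is controlled by its moment of an order
`p = 1 + 1 / log log t` (approximately), and the fluctuations of `a` by exponential moments. As the logarithm of the size of the
argument decreases by a constant factor, the errors of all stages down to a bounded scale have a small sum. So `S` has the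
density `0` or `1` in some block `(y, (1 + c) y)` up to `ε`. But `S` has a natural density, strictly between `0` and `1`
(earlier theorem `EveryClassPositive` of the library).
-/

set_option autoImplicit false

namespace Pool.Agent.Results.MP_fd8838_nt.BoundaryOfInvariantSets

open Filter Topology

/-- The generalised Hasse–Syracuse map `H(x) = (m x - r_j) / d ^ a(x)`, where `j` is the residue of
`x` modulo `d` and `d ^ a(x)` is the largest power of `d` dividing `m x - r_j`. -/
noncomputable def H (d m : ℕ) (r : ℤ → ℤ) (x : ℤ) : ℤ :=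
  (m * x - r (x % d)) / (d : ℤ) ^ multiplicity (d : ℤ) (m * x - r (x % d))

/-- The exceptional set `E(d, m, R)`: the positive integers `n` not divisible by `d` such that
`H^k(n) ≥ n` for all `k ≥ 1` for which `H^k(n)` is defined (the orbit stops at `y` if `m y ≤ r_j`). -/
def E (d m : ℕ) (r : ℤ → ℤ) : Set ℤ :=
  {n | 0 < n ∧ ¬ (d : ℤ) ∣ n ∧ ∀ k, 1 ≤ k →
    (∀ i < k, r ((H d m r)^[i] n % d) < m * (H d m r)^[i] n) → n ≤ (H d m r)^[k] n}

/-- The map `T(n) = n / d` if `d ∣ n` and `(m n - r_j) / d` if `n ≡ j mod d`, `1 ≤ j < d`. -/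
def T (d m : ℕ) (r : ℤ → ℤ) (n : ℤ) : ℤ :=
  if (d : ℤ) ∣ n then n / d else (m * n - r (n % d)) / d

/-- The number of the integers `1 ≤ n ≤ N` such that exactly one of `s n`, `s (n + 1)` belongs to `S`. -/
noncomputable def B (S : Set ℤ) (s : ℤ) (N : ℕ) : ℕ :=
  {n : ℕ | 1 ≤ n ∧ n ≤ N ∧ ¬ (s * (n : ℤ) ∈ S ↔ s * ((n : ℤ) + 1) ∈ S)}.ncard

/-- The bound `N / (√log N (log log N) ^ a)`. -/
noncomputable def h (a : ℝ) (N : ℕ) : ℝ := N / (√(Real.log N) * Real.log (Real.log N) ^ a)

open Pool.Agent.H620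

variable {d m : ℕ} {r : ℤ → ℤ}

theorem T_pos (hd : 2 ≤ d) (hm : 1 ≤ m)
    (hr : ∀ j : ℤ, 0 < j → j < (d : ℤ) → r j ≡ (m : ℤ) * j [ZMOD (d : ℤ)])
    (hp : ∀ j : ℤ, 0 < j → j < (d : ℤ) → r j < m * j) {x : ℤ} (hx : 0 < x) : 0 < T d m r x := by
  have hd0 : (0 : ℤ) < d := by exact_mod_cast (by omega : 0 < d)
  unfold T
  split_ifs with h
  · obtain ⟨q, rfl⟩ := h
    rw [Int.mul_ediv_cancel_left _ hd0.ne']
    exact (mul_pos_iff_of_pos_left hd0).1 hx
  · have h1 := Int.emod_nonneg x hd0.ne'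
    have h2 := Int.emod_lt_of_pos x hd0
    have h3 : x % d ≠ 0 := fun g => h (Int.dvd_of_emod_eq_zero g)
    have h4 := hp (x % d) (by omega) h2
    have h5 : x % d ≤ x := by
      have := Int.emod_add_mul_ediv x d
      have h6 : 0 ≤ (d : ℤ) * (x / d) := mul_nonneg hd0.le (Int.ediv_nonneg hx.le hd0.le)
      linarith
    have hm0 : (0 : ℤ) < m := by exact_mod_cast hm
    have h6 : (m : ℤ) * (x % d) ≤ m * x := mul_le_mul_of_nonneg_left h5 hm0.le
    -- exact division
    have h7 : (d : ℤ) ∣ m * x - r (x % d) := by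
      have g4 := (hr (x % d) (by omega) h2).dvd
      have g5 : (d : ℤ) ∣ m * (x - x % d) := Dvd.dvd.mul_left (Int.dvd_self_sub_emod) _
      have g6 := dvd_add g4 g5
      have g7 : (m : ℤ) * (x % d) - r (x % d) + m * (x - x % d) = m * x - r (x % d) := by ring
      rwa [g7] at g6
    obtain ⟨q, hq⟩ := h7
    rw [hq, Int.mul_ediv_cancel_left _ hd0.ne']
    have h8 : 0 < (d : ℤ) * q := by rw [← hq]; linarith
    exact (mul_pos_iff_of_pos_left hd0).1 h8

theorem iter_pos (hd : 2 ≤ d) (hm : 1 ≤ m)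
    (hr : ∀ j : ℤ, 0 < j → j < (d : ℤ) → r j ≡ (m : ℤ) * j [ZMOD (d : ℤ)])
    (hp : ∀ j : ℤ, 0 < j → j < (d : ℤ) → r j < m * j) {x : ℤ} (hx : 0 < x) (k : ℕ) : 0 < (T d m r)^[k] x := by
  induction k with
  | zero => exact hx
  | succ k ih => rw [Function.iterate_succ_apply']; exact T_pos hd hm hr hp ih

theorem thin (hd : 2 ≤ d) (hm : 2 ≤ m) (hc : Nat.Coprime m d)
    (hle : (m : ℝ) ≤ (d : ℝ) ^ ((d : ℝ) / ((d : ℝ) - 1)))
    (hr : ∀ j : ℤ, 0 < j → j < (d : ℤ) → r j ≡ (m : ℤ) * j [ZMOD (d : ℤ)]) {s : ℤ} (hs : s = 1 ∨ s = -1)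
    {S : Set ℤ} (hS : ∀ x : ℤ, x ∈ S ↔ T d m r x ∈ S)
    (h1 : ∃ x ∈ S, (∀ k : ℕ, (T d m r)^[k] x ≠ 0) ∧ ∀ k₀ : ℕ, ∃ k, k₀ ≤ k ∧ 0 < s * (T d m r)^[k] x)
    (h2 : ∃ x ∉ S, (∀ k : ℕ, (T d m r)^[k] x ≠ 0) ∧ ∀ k₀ : ℕ, ∃ k, k₀ ≤ k ∧ 0 < s * (T d m r)^[k] x)
    {a : ℝ} (ha : 1 < a) (K : ℝ) (hK : ∀ᶠ N : ℕ in atTop, (B S s N : ℝ) ≤ K * h a N) : False := by
  apply Gen.mol_not_thin hd hm hc hle hr hs hS h1 h2 ha (K + 1)
  filter_upwards [hK, Gen.hA_facts (A := a) (by linarith)] with N h3 h4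
  have h5 := Gen.cb_le' (P := fun n : ℕ => s * (n : ℤ) ∈ S) N
  have h6 : {n : ℕ | 1 ≤ n ∧ n ≤ N ∧ ¬ (s * (n : ℤ) ∈ S ↔ s * ((n + 1 : ℕ) : ℤ) ∈ S)}.ncard = B S s N := by
    unfold B
    simp only [Nat.cast_add, Nat.cast_one]
  simp only [h6] at h5
  have h7 : (Bdry.cb (fun n : ℕ => s * (n : ℤ) ∈ S) N : ℝ) ≤ B S s N + 1 := by exact_mod_cast h5
  have h8 : h a N = Gen.hA a N := rfl
  have h9 : Gen.hA a N = N / (√(Real.log N) * Real.log (Real.log N) ^ a) := rfl
  rw [h8] at h3
  rw [← h9]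
  linarith [h4.1]

/-- Let `gcd(m, d) = 1`, `2 ≤ m ≤ d ^ (d / (d - 1))` and `r_j ≡ m j mod d` (`1 ≤ j < d`).
(1) Let `S` be a set of integers with `x ∈ S ↔ T x ∈ S` for all `x`, and let `s = 1` or `s = -1`. Suppose that `S` and its
complement contain points whose trajectories do not meet `0` and are infinitely often on the side `s` of `0`. Then, for
all `a > 1` and all `K`, for infinitely many `N` more than `K N / (√log N (log log N) ^ a)` of the integers `1 ≤ n ≤ N` are such that
exactly one of `s n`, `s (n + 1)` belongs to `S`.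
(2) Suppose that `r_j < m j` for `1 ≤ j < d`, that is, positive integers have positive trajectories. Then `E(d, m, R)` is finite if
and only if there are a nonempty finite set `F` of positive integers with `T F ⊆ F` and `a > 1`, `K` such that, for all large `N`,
at most `K N / (√log N (log log N) ^ a)` of the integers `1 ≤ n ≤ N` are such that exactly one of the trajectories of `n`,
`n + 1` meets `F`. -/
theorem result (d m : ℕ) (hd : 2 ≤ d) (hm : 2 ≤ m) (hc : Nat.Coprime m d)
    (hle : (m : ℝ) ≤ (d : ℝ) ^ ((d : ℝ) / ((d : ℝ) - 1)))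
    (r : ℤ → ℤ) (hr : ∀ j : ℤ, 0 < j → j < (d : ℤ) → r j ≡ (m : ℤ) * j [ZMOD (d : ℤ)]) :
    (∀ S : Set ℤ, (∀ x : ℤ, x ∈ S ↔ T d m r x ∈ S) → ∀ s : ℤ, (s = 1 ∨ s = -1) →
      (∃ x ∈ S, (∀ k : ℕ, (T d m r)^[k] x ≠ 0) ∧ ∀ k₀ : ℕ, ∃ k, k₀ ≤ k ∧ 0 < s * (T d m r)^[k] x) →
      (∃ x ∉ S, (∀ k : ℕ, (T d m r)^[k] x ≠ 0) ∧ ∀ k₀ : ℕ, ∃ k, k₀ ≤ k ∧ 0 < s * (T d m r)^[k] x) →
      ∀ a : ℝ, 1 < a → ∀ K : ℝ, ∃ᶠ N : ℕ in atTop, K * h a N < B S s N) ∧
    ((∀ j : ℤ, 0 < j → j < (d : ℤ) → r j < m * j) →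
      ((E d m r).Finite ↔
        ∃ F : Finset ℤ, F.Nonempty ∧ (∀ x ∈ F, 0 < x) ∧ (∀ x ∈ F, T d m r x ∈ F) ∧
          ∃ a K : ℝ, 1 < a ∧ ∀ᶠ N : ℕ in atTop,
            (B {x : ℤ | ∃ k : ℕ, (T d m r)^[k] x ∈ F} 1 N : ℝ) ≤ K * h a N)) := by
  refine ⟨?_, ?_⟩
  · intro S hS s hs h1 h2 a ha K
    by_contra hcon
    rw [not_frequently] at hcon
    apply thin hd hm hc hle hr hs hS h1 h2 ha K
    filter_upwards [hcon] with N hN
    exact not_lt.1 hN
  · intro hp
    have hd0 : (0 : ℤ) < d := by exact_mod_cast (by omega : 0 < d)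
    have hm1 : 1 ≤ m := by omega
    constructor
    · intro hE
      have hlib := EveryClassPositive.result d m hd hm hc hle r hr
      have h3 := hlib.2.2.1
      have h4 := hlib.2.2.2
      have hEE : EveryClassPositive.E d m r = E d m r := rfl
      have hnot : ¬ ({c : ℤ | 0 < c ∧ ∃ p : ℕ, 1 ≤ p ∧ (T d m r)^[p] c = c}.Infinite ∨
          ∃ δ : ℝ, 0 < δ ∧ EveryClassPositive.HasDensity
            {n : ℤ | Tendsto (fun k : ℕ => (T d m r)^[k] n) atTop atTop} 1 δ) := by
        intro g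
        exact (h4.2 g) hE
      push Not at hnot
      obtain ⟨hfin, hdiv⟩ := hnot
      set G := {c : ℤ | 0 < c ∧ ∃ p : ℕ, 1 ≤ p ∧ (T d m r)^[p] c = c} with hG
      have hdiv' : ¬ ∃ n : ℤ, Tendsto (fun k : ℕ => (T d m r)^[k] n) atTop atTop := by
        intro g
        obtain ⟨δ, hδ, hδ'⟩ := h3 g
        exact hdiv δ hδ hδ'
      -- every positive trajectory meets `G`
      have hmeet : ∀ x : ℤ, 0 < x → ∃ k : ℕ, (T d m r)^[k] x ∈ G := by
        intro x hx
        by_contra hcon
        push Not at hcon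
        apply hdiv'
        refine ⟨x, EveryClassPositive.tendsto_of_inj (B := 1) ?_ (fun k => iter_pos hd hm1 hr hp hx k)⟩
        have hlt : ∀ i j : ℕ, i < j → (T d m r)^[i] x ≠ (T d m r)^[j] x := by
          intro i j hij heq
          apply hcon i
          refine ⟨iter_pos hd hm1 hr hp hx i, j - i, by omega, ?_⟩
          rw [← Function.iterate_add_apply, Nat.sub_add_cancel hij.le, heq]
        intro i j hij
        rcases lt_trichotomy i j with h | h | h
        · exact absurd hij (hlt i j h)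
        · exact h
        · exact absurd hij.symm (hlt j i h)
      refine ⟨hfin.toFinset, ?_, ?_, ?_, 2, 0, by norm_num, Eventually.of_forall fun N => ?_⟩
      · obtain ⟨k, hk⟩ := hmeet 1 one_pos
        exact ⟨_, hfin.mem_toFinset.2 hk⟩
      · intro x hx
        exact (hfin.mem_toFinset.1 hx).1
      · intro x hx
        obtain ⟨g1, p, g2, g3⟩ := hfin.mem_toFinset.1 hx
        refine hfin.mem_toFinset.2 ⟨T_pos hd hm1 hr hp g1, p, g2, ?_⟩
        rw [← Function.iterate_succ_apply, Function.iterate_succ_apply', g3]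
      · have : {n : ℕ | 1 ≤ n ∧ n ≤ N ∧ ¬ (1 * (n : ℤ) ∈ {x : ℤ | ∃ k : ℕ, (T d m r)^[k] x ∈ hfin.toFinset} ↔
            1 * ((n : ℤ) + 1) ∈ {x : ℤ | ∃ k : ℕ, (T d m r)^[k] x ∈ hfin.toFinset})} = ∅ := by
          ext n
          simp only [Set.mem_ofPred_eq, Set.mem_empty_iff_false, iff_false, not_and, not_not]
          intro hn _
          obtain ⟨k, hk⟩ := hmeet (1 * (n : ℤ)) (by omega)
          obtain ⟨l, hl⟩ := hmeet (1 * ((n : ℤ) + 1)) (by omega)
          exact ⟨fun _ => ⟨l, hfin.mem_toFinset.2 hl⟩, fun _ => ⟨k, hfin.mem_toFinset.2 hk⟩⟩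
        unfold B
        rw [this]
        simp
    · rintro ⟨F, ⟨f, hf⟩, hF0, hFT, a, K, ha, hK⟩
      set S := {x : ℤ | ∃ k : ℕ, (T d m r)^[k] x ∈ F} with hS
      have hFk : ∀ k : ℕ, ∀ x ∈ F, (T d m r)^[k] x ∈ F := by
        intro k
        induction k with
        | zero => intro x hx; exact hx
        | succ k ih => intro x hx; rw [Function.iterate_succ_apply]; exact ih _ (hFT x hx)
      have hinv : ∀ x : ℤ, x ∈ S ↔ T d m r x ∈ S := by
        intro x
        constructor
        · rintro ⟨k, hk⟩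
          refine ⟨k, ?_⟩
          rw [← Function.iterate_succ_apply, Function.iterate_succ_apply']
          exact hFT _ hk
        · rintro ⟨k, hk⟩
          exact ⟨k + 1, by rw [Function.iterate_succ_apply]; exact hk⟩
      have side : ∀ x : ℤ, 0 < x → (∀ k : ℕ, (T d m r)^[k] x ≠ 0) ∧
          ∀ k₀ : ℕ, ∃ k, k₀ ≤ k ∧ 0 < (1 : ℤ) * (T d m r)^[k] x := by
        intro x hx
        refine ⟨fun k => (iter_pos hd hm1 hr hp hx k).ne', fun k₀ => ⟨k₀, le_rfl, ?_⟩⟩
        rw [one_mul]
        exact iter_pos hd hm1 hr hp hx k₀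
      have hall : ∀ x : ℤ, 0 < x → x ∈ S := by
        intro x hx
        by_contra hcon
        exact thin hd hm hc hle hr (Or.inl rfl) hinv ⟨f, ⟨0, hf⟩, side f (hF0 f hf)⟩ ⟨x, hcon, side x hx⟩ ha K hK
      -- the exceptional set is bounded
      obtain ⟨M, hM⟩ := F.bddAbove
      obtain ⟨M₂, hM₂⟩ : ∃ M₂ : ℤ, ∀ j : ℤ, 0 < j → j < (d : ℤ) → r j ≤ M₂ := by
        obtain ⟨M₂, hM₂⟩ := ((Set.finite_Ioo (0 : ℤ) d).image r).bddAbove
        exact ⟨M₂, fun j h1 h2 => hM₂ ⟨j, ⟨h1, h2⟩, rfl⟩⟩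
      refine (Set.finite_Icc (1 : ℤ) (max M M₂)).subset ?_
      intro e he
      refine ⟨by have := he.1; omega, ?_⟩
      by_contra hcon
      rw [not_le, max_lt_iff] at hcon
      have hge := EveryClassPositive.orbit_ge (d := d) (m := m) (r := r) hd hm1 hr (n := e) he
        (fun j g1 g2 => lt_of_le_of_lt (hM₂ j g1 g2) hcon.2)
      obtain ⟨k, hk⟩ := hall e he.1
      have h5 : (T d m r)^[k] e ≤ M := hM hk
      have h6 : e ≤ (T d m r)^[k] e := hge k
      linarith [hcon.1]

end Pool.Agent.Results.MP_fd8838_nt.BoundaryOfInvariantSets
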