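import Mathlib
import Pool.Agent.H622.Mw5

/-!
# The exceptional sets of Möller's maps

`H x = (m x - r_j) / d^a` for `x ≡ j mod d`, `d ∤ x`, where `d^a` is the full power of `d`. Möller conjectured
that for `m ≤ d^(d/(d-1))`, `gcd(m, d) = 1`, the set `E` of the `n` with `H^(k)(n) ≥ n` for all `k` is finite.
`E` is the intersection of the sets `E_k` of the `n` with `H^(j)(n) ≥ n` for all `j ≤ k`. For `m < d` the
conjecture is trivial (and `m = d` is excluded). For all `m > d` in the range of the conjecture and all admissible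
`R` we determine the natural density of `E_k` asymptotically, `k → ∞`, and the limit law of the quotient
`H^(k)(n) / n` for `n` in `E_k`, and we prove an upper bound for the counting function of `E` with an explicit
exponent.
-/

set_option autoImplicit false

namespace Pool.Agent.Results.MP_fd8838_nt.SharpLawOfExceptionalSets

open Finset Filter Topology

/-- Möller's map -/
noncomputable def H (d m : ℕ) (r : ℤ → ℤ) (x : ℤ) : ℤ :=
  ((m : ℤ) * x - r (x % (d : ℤ))) / (d : ℤ) ^ (multiplicity (d : ℤ) ((m : ℤ) * x - r (x % (d : ℤ))))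

/-- the exceptional set -/
def E (d m : ℕ) (r : ℤ → ℤ) : Set ℤ := {n | 0 < n ∧ ¬ ((d : ℤ) ∣ n) ∧ ∀ k : ℕ, ¬ (H d m r)^[k] n < n}

/-- the exceptional set of the stage `k` -/
def EUpTo (d m : ℕ) (r : ℤ → ℤ) (k : ℕ) : Set ℤ :=
  {n | 0 < n ∧ ¬ ((d : ℤ) ∣ n) ∧ ∀ j ≤ k, ¬ (H d m r)^[j] n < n}

open scoped Classical in
/-- the number of the positive integers `n ≤ N` in `S` -/
noncomputable def count (S : Set ℤ) (N : ℕ) : ℕ := ((Icc 1 N).filter fun n : ℕ => (n : ℤ) ∈ S).card

/-- the set of the positive integers in `S` has the natural density `δ` -/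
def HasDensity (S : Set ℤ) (δ : ℝ) : Prop := Tendsto (fun N : ℕ => (count S N : ℝ) / N) atTop (𝓝 δ)

/-- the slope -/
noncomputable def θ (d m : ℕ) : ℝ := Real.log d / Real.log m

open scoped Classical in
/-- the number of the 0-1-words of length `A` with `k` ones in which each initial segment of each length `i ≤ A`
contains at least `i t` ones -/
noncomputable def words (t : ℝ) : ℕ → ℕ → ℕ
  | 0, k => if k = 0 then 1 else 0
  | A + 1, k => if ((A + 1 : ℕ) : ℝ) * t ≤ k then words t A k + (if k = 0 then 0 else words t A (k - 1)) else 0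

open scoped Classical in
/-- the number of the 0-1-words of length `A` with `k` ones in which each initial segment of each length
`1 ≤ i ≤ A` contains more than `i t` ones -/
noncomputable def strictWords (t : ℝ) : ℕ → ℕ → ℕ
  | 0, k => if k = 0 then 1 else 0
  | A + 1, k => if ((A + 1 : ℕ) : ℝ) * t < k then strictWords t A k + (if k = 0 then 0 else strictWords t A (k - 1))
    else 0

/-- the density of the part of the exceptional set of the stage `k` with `A` divisions by `d` -/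
noncomputable def share (d m k A : ℕ) : ℝ := (words (θ d m) A k : ℝ) * (((d : ℝ) - 1) ^ (k + 1) / (d : ℝ) ^ (A + 1))

/-- the greatest number of divisions -/
noncomputable def L (d m k : ℕ) : ℕ := ⌊(k : ℝ) / θ d m⌋₊

/-- the density of the exceptional set of the stage `k` -/
noncomputable def dens (d m k : ℕ) : ℝ := ∑ A ∈ range (L d m k + 1), share d m k A

/-- the base of the decay -/
noncomputable def ρ (d m : ℕ) : ℝ :=
  ((d : ℝ) - 1) / θ d m * (1 - θ d m) ^ (1 - 1 / θ d m) * (d : ℝ) ^ (-(1 / θ d m))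

/-- the position with the number `i`: the fractional part of `k / θ`, plus `i` -/
noncomputable def pos (d m k i : ℕ) : ℝ := (k : ℝ) / θ d m - L d m k + i

/-- the renewal function: the expected number of the `j` such that the random walk with the steps `1 - t`, `-t` of
the probabilities `t`, `1 - t` is positive up to the time `j` and at most `w` at the time `j` -/
noncomputable def R (t w : ℝ) : ℝ :=
  ∑' j : ℕ, ∑ o ∈ range (j + 1), if (o : ℝ) - j * t ≤ w then (strictWords t j o : ℝ) * (t ^ o * (1 - t) ^ (j - o)) else 0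

/-- the weights of the positions -/
noncomputable def ψ (d m k i : ℕ) : ℝ :=
  ((d : ℝ) - 1) / d * (θ d m * Real.sqrt (θ d m) * (Real.sqrt (2 * Real.pi * (θ d m * (1 - θ d m))))⁻¹ *
    ((d * (1 - θ d m)) ^ pos d m k i * R (θ d m) (θ d m * pos d m k i)))

/-- the sum of the weights -/
noncomputable def Φ (d m k : ℕ) : ℝ := ∑' i, ψ d m k i

/-- the proportion of the position `i` in the exceptional set of the stage `k` -/
noncomputable def prop (d m k i : ℕ) : ℝ := if i ≤ L d m k then share d m k (L d m k - i) / dens d m k else 0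

/-- those `n` in the exceptional set of the stage `k` whose `H^(k)(n) / n` is close to `c` -/
def near (d m : ℕ) (r : ℤ → ℤ) (k : ℕ) (c ε : ℝ) : Set ℤ :=
  {n | n ∈ EUpTo d m r k ∧ |(((H d m r)^[k] n : ℤ) : ℝ) - c * n| ≤ ε * (c * n)}

namespace Aux

open Pool.Agent.H622

variable {d m : ℕ} {r : ℤ → ℤ}

theorem Np_coeff (t : ℝ) (A : ℕ) : ∀ k, (Gs.Np t 0 A).coeff k = (words t A k : ℤ) := by
  induction A with
  | zero =>
    intro k
    rw [Gs.Np, Polynomial.coeff_one, words]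
    split_ifs <;> simp
  | succ A ih =>
    intro k
    have e : (-(0 : ℝ) ≤ (k : ℝ) - ((A + 1 : ℕ) : ℝ) * t) ↔ ((A + 1 : ℕ) : ℝ) * t ≤ k := by
      constructor <;> intro h <;> linarith
    rw [Gs.Np, Gs.coeff_cut, words]
    by_cases h1 : ((A + 1 : ℕ) : ℝ) * t ≤ k
    · rw [if_pos (e.2 h1), if_pos h1]
      rcases Nat.eq_zero_or_pos k with h2 | h2
      · subst h2
        rw [if_pos rfl, add_mul, one_mul, Polynomial.coeff_add, Polynomial.coeff_X_mul_zero, ih]
        simp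
      · obtain ⟨p, rfl⟩ : ∃ p, k = p + 1 := ⟨k - 1, by omega⟩
        rw [if_neg (by omega), add_mul, one_mul, Polynomial.coeff_add, Polynomial.coeff_X_mul, ih, ih,
          Nat.add_sub_cancel]
        push_cast; rfl
    · rw [if_neg (fun h2 => h1 (e.1 h2)), if_neg h1]
      rfl

theorem Dp_coeff (t : ℝ) (A : ℕ) : ∀ k, (Gs.Dp t A).coeff k = (strictWords t A k : ℤ) := by
  induction A with
  | zero =>
    intro k
    rw [Gs.Dp, Polynomial.coeff_one, strictWords]
    split_ifs <;> simp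
  | succ A ih =>
    intro k
    rw [Gs.Dp_succ, strictWords]
    by_cases h1 : ((A + 1 : ℕ) : ℝ) * t < k
    · rw [if_pos h1, if_pos h1, ih]
      rcases Nat.eq_zero_or_pos k with h2 | h2
      · subst h2
        simp
      · rw [if_neg (by omega), if_neg (by omega), ih]
        push_cast; rfl
    · rw [if_neg h1, if_neg h1]
      rfl

theorem count_eq (S : Set ℤ) (N : ℕ) : (count S N : ℝ) = Mw.cntS S N := by
  unfold count Mw.cntS
  rfl

theorem share_eq (k A : ℕ) : share d m k A = Mw.ee (Mw.th d m) d k A := by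
  unfold share Mw.ee
  rw [Np_coeff]
  push_cast
  rfl

theorem L_eq (k : ℕ) : L d m k = Mw.LL (Mw.th d m) k := rfl

theorem dens_eq (k : ℕ) : dens d m k = Mw.tot (Mw.th d m) d k := by
  unfold dens Mw.tot
  simp only [share_eq, L_eq]

theorem ρ_eq : ρ d m = Mw.rho (Mw.th d m) d := rfl

theorem pos_eq (k i : ℕ) : pos d m k i = Mw.xx (Mw.th d m) k i := rfl

theorem R_eq (t w : ℝ) : R t w = Gs.Vf t w := by
  unfold R Gs.Vf Gs.Rl Gs.b
  congr 1
  funext j
  apply sum_congr rfl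
  intro o _
  rw [Dp_coeff]
  push_cast
  rfl

theorem ψ_eq (k i : ℕ) : ψ d m k i = Mw.psi (Mw.th d m) d k i := by
  unfold ψ Mw.psi Mw.gg Gs.c0
  rw [R_eq, pos_eq]
  rfl

theorem Φ_eq (k : ℕ) : Φ d m k = ∑' i, Mw.psi (Mw.th d m) d k i := by
  unfold Φ
  simp only [ψ_eq]

theorem prop_eq (k i : ℕ) : prop d m k i = Mw.emp (Mw.th d m) d k i := by
  unfold prop Mw.emp
  rw [share_eq, dens_eq, L_eq]

theorem strict (hd : 2 ≤ d) (hc : Nat.Coprime m d) (hdm : d < m)
    (hm : (m : ℝ) ≤ (d : ℝ) ^ ((d : ℝ) / ((d : ℝ) - 1)))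
    (hr : ∀ j : ℤ, 0 < j → j < (d : ℤ) → r j ≡ (m : ℤ) * j [ZMOD (d : ℤ)]) :
    Mw.Mol d m r ∧ (m : ℝ) < (d : ℝ) ^ ((d : ℝ) / ((d : ℝ) - 1)) := by
  have h : Mw.Mol d m r := ⟨hd, hdm, hc, hr⟩
  refine ⟨h, lt_of_le_of_ne hm ?_⟩
  intro e
  have hdR : (2 : ℝ) ≤ d := by exact_mod_cast hd
  have h1 : (m : ℝ) ^ (d - 1) = (d : ℝ) ^ d := by
    rw [e, ← Real.rpow_natCast, ← Real.rpow_natCast, ← Real.rpow_mul (by linarith), Nat.cast_sub (by omega),
      Nat.cast_one, div_mul_cancel₀ _ (by linarith)]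
  exact h.ne_pow (show 1 ≤ d by omega) (d - 1) (by exact_mod_cast h1)

theorem pow_pos_eq (h : Mw.Mol d m r) {k i : ℕ} (hi : i ≤ L d m k) :
    (d : ℝ) ^ pos d m k i = (m : ℝ) ^ k / (d : ℝ) ^ (L d m k - i) := by
  have hdR : (2 : ℝ) ≤ d := by exact_mod_cast h.d2
  have hmR : (0 : ℝ) < m := by have := h.dm; exact_mod_cast (by omega : 0 < m)
  obtain ⟨h1, h2⟩ := h.logs
  have h3 : 0 < Real.log m := h1.trans h2
  have e : pos d m k i = (k : ℝ) / θ d m - ((L d m k - i : ℕ) : ℝ) := by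
    unfold pos
    rw [Nat.cast_sub hi]
    ring
  rw [e, Real.rpow_sub (by linarith), Real.rpow_natCast]
  congr 1
  rw [Real.rpow_def_of_pos (by linarith)]
  unfold θ
  rw [show Real.log d * ((k : ℝ) / (Real.log d / Real.log m)) = k * Real.log m by field_simp,
    Real.exp_nat_mul, Real.exp_log hmR]

end Aux

open Aux

/-- THE EXCEPTIONAL SETS OF MÖLLER'S MAPS. Let `d ≥ 2`, `m > d`, `gcd(m, d) = 1`, `m ≤ d^(d/(d-1))`, and let
`R = {r_1, …, r_(d-1)}` be admissible.
(1) The exceptional set of the stage `k` has the natural density `dens d m k`, and for each of the positions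
`x = {k/θ} + i` the density of those of its elements with `H^(k)(n) / n = d^x (1 + O(ε))` is
`share d m k (⌊k/θ⌋ - i)`, for `0 < ε < 1/3`.
(2) The density is `(Φ(k) + o(1)) k^(-3/2) ρ^k`, where `0 < ρ < 1` and `Φ` is bounded and bounded away from zero.
(3) The distribution of the position converges in total variation: its distance to `ψ(k, ·) / Φ(k)` tends to zero.
(4) `k^(3/2) ρ^(-k) dens` does not converge.
(5) `#(E ∩ [1, N]) ≤ C N^(1 - log(1/ρ) / log m) (log N)^(-3/2)`. -/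
theorem result (d m : ℕ) (r : ℤ → ℤ) (hd : 2 ≤ d) (hdm : d < m) (hc : Nat.Coprime m d)
    (hm : (m : ℝ) ≤ (d : ℝ) ^ ((d : ℝ) / ((d : ℝ) - 1)))
    (hr : ∀ j : ℤ, 0 < j → j < (d : ℤ) → r j ≡ (m : ℤ) * j [ZMOD (d : ℤ)]) :
    ((∀ k : ℕ, HasDensity (EUpTo d m r k) (dens d m k)) ∧
      ∀ (k i : ℕ) (ε : ℝ), i ≤ L d m k → 0 < ε → ε < 1 / 3 →
        HasDensity (near d m r k ((d : ℝ) ^ pos d m k i) ε) (share d m k (L d m k - i))) ∧
    ((0 < ρ d m ∧ ρ d m < 1) ∧ (∃ a b : ℝ, 0 < a ∧ ∀ k : ℕ, a ≤ Φ d m k ∧ Φ d m k ≤ b) ∧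
      Tendsto (fun k : ℕ => k * Real.sqrt k * (dens d m k * (ρ d m)⁻¹ ^ k) - Φ d m k) atTop (𝓝 0)) ∧
    Tendsto (fun k : ℕ => ∑' i, |prop d m k i - ψ d m k i / Φ d m k|) atTop (𝓝 0) ∧
    (¬ ∃ l : ℝ, Tendsto (fun k : ℕ => k * Real.sqrt k * (dens d m k * (ρ d m)⁻¹ ^ k)) atTop (𝓝 l)) ∧
    ∃ C : ℝ, 0 < C ∧ ∀ N : ℕ, 2 ≤ N →
      (count (E d m r) N : ℝ) ≤ C * (N : ℝ) ^ (1 + Real.log (ρ d m) / Real.log m) /
        (Real.log N * Real.sqrt (Real.log N)) := by
  obtain ⟨h, hlt⟩ := strict (r := r) hd hc hdm hm hr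
  have hp := h.par hlt
  have hsharp : Tendsto (fun k : ℕ => k * Real.sqrt k * (dens d m k * (ρ d m)⁻¹ ^ k) - Φ d m k) atTop (𝓝 0) := by
    have h1 := Pool.Agent.H622.Mw.sharp hp
    refine h1.congr fun k => ?_
    rw [dens_eq, ρ_eq, Φ_eq]
  refine ⟨⟨fun k => ?_, fun k i ε hi hε hε3 => ?_⟩, ⟨⟨?_, ?_⟩, ?_, hsharp⟩, ?_, ?_, ?_⟩
  · unfold HasDensity
    simp only [count_eq]
    rw [dens_eq]
    exact Pool.Agent.H622.Mw.dens_Ek h k
  · unfold HasDensity
    simp only [count_eq]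
    rw [pow_pos_eq h hi, share_eq]
    exact Pool.Agent.H622.Mw.dens_near h k (by rw [L_eq]; omega) hε hε3
  · exact Pool.Agent.H622.Mw.rho_pos hp
  · exact Pool.Agent.H622.Mw.rho_lt_one h hp
  · obtain ⟨a, ha, hl⟩ := Pool.Agent.H622.Mw.psi_lower hp
    obtain ⟨b, -, hu⟩ := Pool.Agent.H622.Mw.psi_upper hp
    exact ⟨a, b, ha, fun k => by rw [Φ_eq]; exact ⟨hl k, hu k⟩⟩
  · have h1 := Pool.Agent.H622.Mw.tv hp
    refine h1.congr fun k => ?_
    congr 1
    funext i
    rw [prop_eq, ψ_eq, Φ_eq]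
    rfl
  · rintro ⟨l, hl⟩
    apply Pool.Agent.H622.Mw.no_limit hp
    refine ⟨l, ?_⟩
    have h1 := hl.sub hsharp
    rw [sub_zero] at h1
    refine h1.congr fun k => ?_
    rw [Φ_eq]; ring
  · obtain ⟨C, hC, h1⟩ := Pool.Agent.H622.Mw.count h hp
    refine ⟨C, hC, fun N hN => ?_⟩
    rw [count_eq]
    exact h1 N hN

end Pool.Agent.Results.MP_fd8838_nt.SharpLawOfExceptionalSets
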